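import Pool.Agent.J4H88.ABG.Sl3

/-!
# Project ABG: commutation relations of `sl_3` on a module
-/

namespace Pool.Agent.J4H64.ABG

open Pool.Agent.J4H88.ABG LieAlgebra.SpecialLinear

attribute [local instance 100] LieRing.ofAssociativeRing

universe u v

section

variable {𝕜 : Type u} [Field 𝕜]

/-- brackets of the generators of `sl_3` -/
theorem brs :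
    ⁅h1 𝕜, e1 𝕜⁆ = (2 : 𝕜) • e1 𝕜 ∧ ⁅h1 𝕜, e2 𝕜⁆ = (-1 : 𝕜) • e2 𝕜 ∧
    ⁅h1 𝕜, e3 𝕜⁆ = e3 𝕜 ∧
    ⁅h2 𝕜, e1 𝕜⁆ = (-1 : 𝕜) • e1 𝕜 ∧ ⁅h2 𝕜, e2 𝕜⁆ = (2 : 𝕜) • e2 𝕜 ∧
    ⁅h2 𝕜, e3 𝕜⁆ = e3 𝕜 ∧
    ⁅h1 𝕜, f1 𝕜⁆ = (-2 : 𝕜) • f1 𝕜 ∧ ⁅h1 𝕜, f2 𝕜⁆ = f2 𝕜 ∧
    ⁅h1 𝕜, f3 𝕜⁆ = (-1 : 𝕜) • f3 𝕜 ∧
    ⁅h2 𝕜, f1 𝕜⁆ = f1 𝕜 ∧ ⁅h2 𝕜, f2 𝕜⁆ = (-2 : 𝕜) • f2 𝕜 ∧
    ⁅h2 𝕜, f3 𝕜⁆ = (-1 : 𝕜) • f3 𝕜 ∧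
    ⁅e1 𝕜, e2 𝕜⁆ = e3 𝕜 ∧ ⁅e1 𝕜, e3 𝕜⁆ = 0 ∧ ⁅e2 𝕜, e3 𝕜⁆ = 0 ∧
    ⁅f2 𝕜, f1 𝕜⁆ = f3 𝕜 ∧ ⁅f3 𝕜, f1 𝕜⁆ = 0 ∧ ⁅f3 𝕜, f2 𝕜⁆ = 0 ∧
    ⁅e1 𝕜, f1 𝕜⁆ = h1 𝕜 ∧ ⁅e2 𝕜, f2 𝕜⁆ = h2 𝕜 ∧ ⁅e3 𝕜, f3 𝕜⁆ = h1 𝕜 + h2 𝕜 ∧
    ⁅e1 𝕜, f2 𝕜⁆ = 0 ∧ ⁅e2 𝕜, f1 𝕜⁆ = 0 ∧
    ⁅e1 𝕜, f3 𝕜⁆ = (-1 : 𝕜) • f2 𝕜 ∧ ⁅e2 𝕜, f3 𝕜⁆ = f1 𝕜 ∧
    ⁅e3 𝕜, f1 𝕜⁆ = (-1 : 𝕜) • e2 𝕜 ∧ ⁅e3 𝕜, f2 𝕜⁆ = e1 𝕜 ∧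
    ⁅h1 𝕜, h2 𝕜⁆ = 0 := by
  refine ⟨?_, ?_, ?_, ?_, ?_, ?_, ?_, ?_, ?_, ?_, ?_, ?_, ?_, ?_, ?_, ?_, ?_, ?_, ?_, ?_, ?_,
    ?_, ?_, ?_, ?_, ?_, ?_, ?_⟩ <;>
  · apply Subtype.ext
    rw [sl_bracket]
    ext i j
    fin_cases i <;> fin_cases j <;>
      simp [e1, e2, e3, f1, f2, f3, h1, h2, Matrix.mul_apply,
        Matrix.single_apply] <;> norm_num

variable {M : Type v} [AddCommGroup M] [Module 𝕜 M]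

theorem br (φ : sl3 𝕜 →ₗ⁅𝕜⁆ Module.End 𝕜 M) {X Y Z : sl3 𝕜} (h : ⁅X, Y⁆ = Z) (m : M) :
    φ X (φ Y m) = φ Y (φ X m) + φ Z m := by
  have h1 := congrArg (fun g : Module.End 𝕜 M => g m) (φ.map_lie X Y)
  simp only [h, LieRing.of_associative_ring_bracket, LinearMap.sub_apply, Module.End.mul_apply]
    at h1
  rw [h1]; abel

/-- the commutation relations as a structure on eight operators -/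
structure Sys (𝕜 : Type u) [Field 𝕜] (M : Type v) [AddCommGroup M] [Module 𝕜 M]
    (E1 E2 E3 F1 F2 F3 H1 H2 : M →ₗ[𝕜] M) : Prop where
  h1e1 : ∀ m, H1 (E1 m) = E1 (H1 m) + (2 : 𝕜) • E1 m
  h1e2 : ∀ m, H1 (E2 m) = E2 (H1 m) - E2 m
  h1e3 : ∀ m, H1 (E3 m) = E3 (H1 m) + E3 m
  h2e1 : ∀ m, H2 (E1 m) = E1 (H2 m) - E1 m
  h2e2 : ∀ m, H2 (E2 m) = E2 (H2 m) + (2 : 𝕜) • E2 m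
  h2e3 : ∀ m, H2 (E3 m) = E3 (H2 m) + E3 m
  h1f1 : ∀ m, H1 (F1 m) = F1 (H1 m) - (2 : 𝕜) • F1 m
  h1f2 : ∀ m, H1 (F2 m) = F2 (H1 m) + F2 m
  h1f3 : ∀ m, H1 (F3 m) = F3 (H1 m) - F3 m
  h2f1 : ∀ m, H2 (F1 m) = F1 (H2 m) + F1 m
  h2f2 : ∀ m, H2 (F2 m) = F2 (H2 m) - (2 : 𝕜) • F2 m
  h2f3 : ∀ m, H2 (F3 m) = F3 (H2 m) - F3 m
  e1e2 : ∀ m, E1 (E2 m) = E2 (E1 m) + E3 m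
  e1e3 : ∀ m, E1 (E3 m) = E3 (E1 m)
  e2e3 : ∀ m, E2 (E3 m) = E3 (E2 m)
  f2f1 : ∀ m, F2 (F1 m) = F1 (F2 m) + F3 m
  f3f1 : ∀ m, F3 (F1 m) = F1 (F3 m)
  f3f2 : ∀ m, F3 (F2 m) = F2 (F3 m)
  e1f1 : ∀ m, E1 (F1 m) = F1 (E1 m) + H1 m
  e2f2 : ∀ m, E2 (F2 m) = F2 (E2 m) + H2 m
  e3f3 : ∀ m, E3 (F3 m) = F3 (E3 m) + (H1 m + H2 m)
  e1f2 : ∀ m, E1 (F2 m) = F2 (E1 m)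
  e2f1 : ∀ m, E2 (F1 m) = F1 (E2 m)
  e1f3 : ∀ m, E1 (F3 m) = F3 (E1 m) - F2 m
  e2f3 : ∀ m, E2 (F3 m) = F3 (E2 m) + F1 m
  e3f1 : ∀ m, E3 (F1 m) = F1 (E3 m) - E2 m
  e3f2 : ∀ m, E3 (F2 m) = F2 (E3 m) + E1 m
  h1h2 : ∀ m, H1 (H2 m) = H2 (H1 m)

theorem sys (φ : sl3 𝕜 →ₗ⁅𝕜⁆ Module.End 𝕜 M) :
    Sys 𝕜 M (φ (e1 𝕜)) (φ (e2 𝕜)) (φ (e3 𝕜)) (φ (f1 𝕜)) (φ (f2 𝕜)) (φ (f3 𝕜)) (φ (h1 𝕜))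
      (φ (h2 𝕜)) := by
  obtain ⟨a1, a2, a3, a4, a5, a6, a7, a8, a9, a10, a11, a12, a13, a14, a15, a16, a17, a18, a19,
    a20, a21, a22, a23, a24, a25, a26, a27, a28⟩ := brs (𝕜 := 𝕜)
  refine ⟨fun m => ?_, fun m => ?_, fun m => ?_, fun m => ?_, fun m => ?_, fun m => ?_,
    fun m => ?_, fun m => ?_, fun m => ?_, fun m => ?_, fun m => ?_, fun m => ?_, fun m => ?_,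
    fun m => ?_, fun m => ?_, fun m => ?_, fun m => ?_, fun m => ?_, fun m => ?_, fun m => ?_,
    fun m => ?_, fun m => ?_, fun m => ?_, fun m => ?_, fun m => ?_, fun m => ?_, fun m => ?_,
    fun m => ?_⟩
  · rw [br φ a1]; simp
  · rw [br φ a2]; simp [sub_eq_add_neg]
  · rw [br φ a3]
  · rw [br φ a4]; simp [sub_eq_add_neg]
  · rw [br φ a5]; simp
  · rw [br φ a6]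
  · rw [br φ a7]; simp [sub_eq_add_neg]
  · rw [br φ a8]
  · rw [br φ a9]; simp [sub_eq_add_neg]
  · rw [br φ a10]
  · rw [br φ a11]; simp [sub_eq_add_neg]
  · rw [br φ a12]; simp [sub_eq_add_neg]
  · rw [br φ a13]
  · rw [br φ a14]; simp
  · rw [br φ a15]; simp
  · rw [br φ a16]
  · rw [br φ a17]; simp
  · rw [br φ a18]; simp
  · rw [br φ a19]
  · rw [br φ a20]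
  · rw [br φ a21]; simp
  · rw [br φ a22]; simp
  · rw [br φ a23]; simp
  · rw [br φ a24]; simp [sub_eq_add_neg]
  · rw [br φ a25]
  · rw [br φ a26]; simp [sub_eq_add_neg]
  · rw [br φ a27]
  · rw [br φ a28]; simp

end

end Pool.Agent.J4H64.ABG
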