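import Pool.Agent.J4H64.ABG.Wc

/-!
# Project ABG: an eigenvector of the Casimir operator gives a highest weight vector
-/

namespace Pool.Agent.J4H64.ABG

open Pool.Agent.J4H88.ABG LieAlgebra.SpecialLinear

attribute [local instance 100] LieRing.ofAssociativeRing

set_option linter.unusedSimpArgs false

universe u v

section

variable {𝕜 : Type u} [Field 𝕜] {M : Type v} [AddCommGroup M] [Module 𝕜 M]

/-- the Casimir operator commutes with the four operators `h1, h2, e1, e2` -/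
theorem cas_comm (φ : sl3 𝕜 →ₗ⁅𝕜⁆ Module.End 𝕜 M) (m : M) :
    cas φ (φ (h1 𝕜) m) = φ (h1 𝕜) (cas φ m) ∧ cas φ (φ (h2 𝕜) m) = φ (h2 𝕜) (cas φ m) ∧
    cas φ (φ (e1 𝕜) m) = φ (e1 𝕜) (cas φ m) ∧ cas φ (φ (e2 𝕜) m) = φ (e2 𝕜) (cas φ m) := by
  have S := sys φ
  have hc : ∀ w, cas φ w = (6 : 𝕜) • (φ (f1 𝕜) (φ (e1 𝕜) w) + φ (f2 𝕜) (φ (e2 𝕜) w)
      + φ (f3 𝕜) (φ (e3 𝕜) w)) + (2 : 𝕜) • (φ (h1 𝕜) (φ (h1 𝕜) w) + φ (h1 𝕜) (φ (h2 𝕜) w)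
        + φ (h2 𝕜) (φ (h2 𝕜) w)) + (6 : 𝕜) • (φ (h1 𝕜) w + φ (h2 𝕜) w) := fun w => rfl
  rw [hc, hc, hc, hc, hc]
  generalize φ (e1 𝕜) = E1 at *
  generalize φ (e2 𝕜) = E2 at *
  generalize φ (e3 𝕜) = E3 at *
  generalize φ (f1 𝕜) = F1 at *
  generalize φ (f2 𝕜) = F2 at *
  generalize φ (f3 𝕜) = F3 at *
  generalize φ (h1 𝕜) = H1 at *
  generalize φ (h2 𝕜) = H2 at *
  -- normal form `F E H`
  refine ⟨?_, ?_, ?_, ?_⟩ <;>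
  · simp only [map_add, map_sub, map_smul, smul_add, smul_sub, S.h1e1, S.h1e2, S.h1e3, S.h2e1,
      S.h2e2, S.h2e3, S.h1f1, S.h1f2, S.h1f3, S.h2f1, S.h2f2, S.h2f3, S.e1e2, S.e1e3, S.e2e3,
      S.e1f1, S.e2f2, S.e3f3, S.e1f2, S.e2f1, S.e1f3, S.e2f3, S.e3f1, S.e3f2, S.h1h2]
    module

variable [CharZero 𝕜] [FiniteDimensional 𝕜 M]

/-- an invariant nonzero subspace contains a joint eigenvector of `h1`, `h2` -/
theorem exists_joint (H1 H2 : Module.End 𝕜 M) (hcomm : ∀ m, H1 (H2 m) = H2 (H1 m))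
    (ht1 : ⨆ μ : 𝕜, Module.End.eigenspace H1 μ = ⊤)
    (ht2 : ⨆ μ : 𝕜, Module.End.eigenspace H2 μ = ⊤)
    (N : Submodule 𝕜 M) (hN : N ≠ ⊥) (hN1 : ∀ x ∈ N, H1 x ∈ N) (hN2 : ∀ x ∈ N, H2 x ∈ N) :
    ∃ (v : M) (a b : 𝕜), v ∈ N ∧ v ≠ 0 ∧ H1 v = a • v ∧ H2 v = b • v := by
  have key : ∀ (H : Module.End 𝕜 M), (⨆ μ : 𝕜, Module.End.eigenspace H μ = ⊤) →
      ∀ P : Submodule 𝕜 M, P ≠ ⊥ → (∀ x ∈ P, H x ∈ P) →
        ∃ a : 𝕜, P ⊓ Module.End.eigenspace H a ≠ ⊥ := by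
    intro H hH P hP hinv
    by_contra hcon
    push Not at hcon
    have h := Submodule.inf_iSup_genEigenspace (p := P) (f := H) hinv 1
    have h1 : (⨆ μ : 𝕜, Module.End.genEigenspace H μ 1) = ⊤ := hH
    rw [h1, inf_top_eq] at h
    apply hP
    rw [h, iSup_eq_bot]
    exact hcon
  obtain ⟨a, ha⟩ := key H1 ht1 N hN hN1
  obtain ⟨b, hb⟩ := key H2 ht2 _ ha (by
    intro x hx
    refine ⟨hN2 x hx.1, ?_⟩
    have hx2 : H1 x = a • x := Module.End.mem_eigenspace_iff.1 hx.2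
    exact Module.End.mem_eigenspace_iff.2 (by rw [hcomm, hx2, map_smul]))
  obtain ⟨v, hv, hv0⟩ := Submodule.exists_mem_ne_zero_of_ne_bot hb
  exact ⟨v, a, b, hv.1.1, hv0, Module.End.mem_eigenspace_iff.1 hv.1.2,
    Module.End.mem_eigenspace_iff.1 hv.2⟩

/-- JOB WB -/
theorem job_WB (φ : sl3 𝕜 →ₗ⁅𝕜⁆ Module.End 𝕜 M) (hM : ⨆ μ, wtS φ μ = ⊤) (c : 𝕜) (m : M)
    (hm : m ≠ 0) (hc : cas φ m = c • m) :
    ∃ (v : M) (p q : ℕ), v ≠ 0 ∧ φ (h1 𝕜) v = (p : 𝕜) • v ∧ φ (h2 𝕜) v = (q : 𝕜) • v ∧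
      φ (e1 𝕜) v = 0 ∧ φ (e2 𝕜) v = 0 ∧
      c = 2 * ((p : 𝕜) ^ 2 + p * q + (q : 𝕜) ^ 2) + 6 * ((p : 𝕜) + q) := by
  have S := sys φ
  have ht1 : ⨆ μ : 𝕜, Module.End.eigenspace (φ (h1 𝕜)) μ = ⊤ := by
    rw [eq_top_iff, ← hM]
    refine iSup_le fun μ => ?_
    refine le_trans ?_ (le_iSup (fun μ : 𝕜 => Module.End.eigenspace (φ (h1 𝕜)) μ) (μ.1 : 𝕜))
    intro x hx
    exact Module.End.mem_eigenspace_iff.2 hx.1
  have ht2 : ⨆ μ : 𝕜, Module.End.eigenspace (φ (h2 𝕜)) μ = ⊤ := by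
    rw [eq_top_iff, ← hM]
    refine iSup_le fun μ => ?_
    refine le_trans ?_ (le_iSup (fun μ : 𝕜 => Module.End.eigenspace (φ (h2 𝕜)) μ) (μ.2 : 𝕜))
    intro x hx
    exact Module.End.mem_eigenspace_iff.2 hx.2
  let N : Submodule 𝕜 M := Module.End.eigenspace (cas φ) c
  have hN : ∀ x, x ∈ N ↔ cas φ x = c • x := fun x => Module.End.mem_eigenspace_iff
  have hNne : N ≠ ⊥ := by
    intro h
    apply hm
    have : m ∈ N := (hN m).2 hc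
    rw [h] at this
    exact (Submodule.mem_bot 𝕜).1 this
  have hNh1 : ∀ x ∈ N, φ (h1 𝕜) x ∈ N := by
    intro x hx
    rw [hN] at hx ⊢
    rw [(cas_comm φ x).1, hx, map_smul]
  have hNh2 : ∀ x ∈ N, φ (h2 𝕜) x ∈ N := by
    intro x hx
    rw [hN] at hx ⊢
    rw [(cas_comm φ x).2.1, hx, map_smul]
  have hNe1 : ∀ x ∈ N, φ (e1 𝕜) x ∈ N := by
    intro x hx
    rw [hN] at hx ⊢
    rw [(cas_comm φ x).2.2.1, hx, map_smul]
  have hNe2 : ∀ x ∈ N, φ (e2 𝕜) x ∈ N := by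
    intro x hx
    rw [hN] at hx ⊢
    rw [(cas_comm φ x).2.2.2, hx, map_smul]
  obtain ⟨v0, a0, b0, hv0N, hv0, h10, h20⟩ := exists_joint _ _ S.h1h2 ht1 ht2 N hNne hNh1 hNh2
  -- the set of the heights
  let T : Set ℕ := {k | ∃ (v : M) (a b : 𝕜), v ∈ N ∧ v ≠ 0 ∧ φ (h1 𝕜) v = a • v ∧
    φ (h2 𝕜) v = b • v ∧ a + b = a0 + b0 + k}
  have hT0 : (0 : ℕ) ∈ T := ⟨v0, a0, b0, hv0N, hv0, h10, h20, by simp⟩
  have hTfin : T.Finite := by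
    have hfin : {μ : 𝕜 | Module.End.HasEigenvalue (φ (h1 𝕜) + φ (h2 𝕜)) μ}.Finite :=
      Module.End.finite_hasEigenvalue _
    refine Set.Finite.of_finite_image (f := fun k : ℕ => a0 + b0 + (k : 𝕜)) (hfin.subset ?_) ?_
    · rintro _ ⟨k, ⟨v, a, b, -, hv, hva, hvb, hab⟩, rfl⟩
      refine Module.End.hasEigenvalue_of_hasEigenvector (x := v) ⟨?_, hv⟩
      rw [Module.End.mem_eigenspace_iff, LinearMap.add_apply, hva, hvb, ← add_smul, hab]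
    · intro k _ l _ hkl
      have : (k : 𝕜) = l := by simpa using hkl
      exact_mod_cast this
  obtain ⟨k, hk, hmax⟩ := hTfin.exists_maximal ⟨0, hT0⟩
  obtain ⟨v, a, b, hvN, hv, hva, hvb, hab⟩ := hk
  have hk1 : k + 1 ∉ T := by
    intro h
    have := hmax h (Nat.le_succ k)
    omega
  have he1 : φ (e1 𝕜) v = 0 := by
    by_contra hne
    refine hk1 ⟨_, a + 2, b - 1, hNe1 v hvN, hne, ?_, ?_, ?_⟩
    · rw [S.h1e1, hva, map_smul]; module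
    · rw [S.h2e1, hvb, map_smul]; module
    · push_cast; linear_combination hab
  have he2 : φ (e2 𝕜) v = 0 := by
    by_contra hne
    refine hk1 ⟨_, a - 1, b + 2, hNe2 v hvN, hne, ?_, ?_, ?_⟩
    · rw [S.h1e2, hva, map_smul]; module
    · rw [S.h2e2, hvb, map_smul]; module
    · push_cast; linear_combination hab
  obtain ⟨p, hp, -⟩ := prim _ _ _ S.e1f1 S.h1e1 S.h1f1 v hv a hva he1
  obtain ⟨q, hq, -⟩ := prim _ _ _ S.e2f2 S.h2e2 S.h2f2 v hv b hvb he2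
  subst hp hq
  refine ⟨v, p, q, hv, hva, hvb, he1, he2, ?_⟩
  have he3 : φ (e3 𝕜) v = 0 := by
    have := S.e1e2 v
    rw [he2, he1, map_zero, map_zero, zero_add] at this
    exact this.symm
  have hcv : cas φ v = c • v := (hN v).1 hvN
  have hcas : cas φ v = (6 : 𝕜) • (φ (f1 𝕜) (φ (e1 𝕜) v) + φ (f2 𝕜) (φ (e2 𝕜) v)
      + φ (f3 𝕜) (φ (e3 𝕜) v)) + (2 : 𝕜) • (φ (h1 𝕜) (φ (h1 𝕜) v) + φ (h1 𝕜) (φ (h2 𝕜) v)
        + φ (h2 𝕜) (φ (h2 𝕜) v)) + (6 : 𝕜) • (φ (h1 𝕜) v + φ (h2 𝕜) v) := rfl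
  rw [hcas, he1, he2, he3] at hcv
  simp only [map_zero, hva, hvb, map_smul, add_zero, smul_zero, zero_add] at hcv
  have hfin : (c - (2 * ((p : 𝕜) ^ 2 + p * q + (q : 𝕜) ^ 2) + 6 * ((p : 𝕜) + q))) • v = 0 := by
    rw [sub_smul, ← hcv]; module
  exact sub_eq_zero.1 ((smul_eq_zero.1 hfin).resolve_right hv)

end

end Pool.Agent.J4H64.ABG
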