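import Pool.Agent.J4H64.ABG.Rel

/-!
# Project ABG: highest weight vectors of weight `0` and `(1,1)`
-/

namespace Pool.Agent.J4H64.ABG

open Pool.Agent.J4H88.ABG LieAlgebra.SpecialLinear

attribute [local instance 100] LieRing.ofAssociativeRing

set_option linter.unusedSimpArgs false

universe u v

section

variable {𝕜 : Type u} [Field 𝕜] [CharZero 𝕜] {M : Type v} [AddCommGroup M] [Module 𝕜 M]
  [FiniteDimensional 𝕜 M]

/-- `sl_2` theory: a primitive vector has natural weight `n` and `f^{n+1}` kills it -/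
theorem prim (E F H : Module.End 𝕜 M) (hef : ∀ m, E (F m) = F (E m) + H m)
    (hhe : ∀ m, H (E m) = E (H m) + (2 : 𝕜) • E m)
    (hhf : ∀ m, H (F m) = F (H m) - (2 : 𝕜) • F m) (v : M) (hv : v ≠ 0) (μ : 𝕜)
    (hH : H v = μ • v) (hE : E v = 0) :
    ∃ n : ℕ, μ = n ∧ (F ^ (n + 1)) v = 0 := by
  by_cases hH0 : H = 0
  · have h0 : μ = 0 := by
      rw [hH0, LinearMap.zero_apply] at hH
      exact (smul_eq_zero.1 hH.symm).resolve_right hv
    refine ⟨0, by simpa using h0, ?_⟩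
    have h := hhf v
    rw [hH0] at h
    simp only [LinearMap.zero_apply, map_zero, zero_sub] at h
    have h2 : F v = 0 := by
      have h3 : (2 : 𝕜) • F v = 0 := by rw [← neg_eq_zero]; exact h.symm
      exact (smul_eq_zero.1 h3).resolve_left two_ne_zero
    simpa using h2
  · have t : IsSl2Triple H E F := by
      refine ⟨hH0, ?_, ?_, ?_⟩
      · ext m; simp [LieRing.of_associative_ring_bracket, hef]
      · ext m
        simp only [LieRing.of_associative_ring_bracket, LinearMap.sub_apply, Module.End.mul_apply,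
          hhe, LinearMap.smul_apply]
        rw [add_sub_cancel_left, ← Nat.cast_smul_eq_nsmul 𝕜]; norm_num
      · ext m
        simp only [LieRing.of_associative_ring_bracket, LinearMap.sub_apply, Module.End.mul_apply,
          hhf, LinearMap.smul_apply, LinearMap.neg_apply]
        rw [← Nat.cast_smul_eq_nsmul 𝕜]; norm_num
    have P : t.HasPrimitiveVectorWith v μ := ⟨hv, by simpa using hH, by simpa using hE⟩
    obtain ⟨n, hn⟩ := P.exists_nat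
    refine ⟨n, hn, ?_⟩
    have := P.pow_toEnd_f_eq_zero_of_eq_nat hn
    simpa [LieModule.toEnd_module_end] using this

omit [CharZero 𝕜] [FiniteDimensional 𝕜 M] in
theorem tr22 (X : sl3 𝕜) : X.1 2 2 = -X.1 0 0 - X.1 1 1 := by
  have h := X.2
  change X.1 ∈ LinearMap.ker (Matrix.traceLinearMap (Fin 3) 𝕜 𝕜) at h
  simp only [LinearMap.mem_ker, Matrix.traceLinearMap_apply, Matrix.trace, Matrix.diag_apply,
    Fin.sum_univ_three] at h
  linear_combination h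

omit [CharZero 𝕜] [FiniteDimensional 𝕜 M] in
theorem repr (φ : sl3 𝕜 →ₗ⁅𝕜⁆ Module.End 𝕜 M) (X : sl3 𝕜) (m : M) :
    φ X m = X.1 0 1 • φ (e1 𝕜) m + X.1 1 2 • φ (e2 𝕜) m + X.1 0 2 • φ (e3 𝕜) m
      + X.1 1 0 • φ (f1 𝕜) m + X.1 2 1 • φ (f2 𝕜) m + X.1 2 0 • φ (f3 𝕜) m
      + X.1 0 0 • φ (h1 𝕜) m + (X.1 0 0 + X.1 1 1) • φ (h2 𝕜) m := by
  have htr := tr22 X
  have hX : X = X.1 0 1 • e1 𝕜 + X.1 1 2 • e2 𝕜 + X.1 0 2 • e3 𝕜
      + X.1 1 0 • f1 𝕜 + X.1 2 1 • f2 𝕜 + X.1 2 0 • f3 𝕜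
      + X.1 0 0 • h1 𝕜 + (X.1 0 0 + X.1 1 1) • h2 𝕜 := by
    apply Subtype.ext
    ext i j
    fin_cases i <;> fin_cases j <;>
      simp [e1, e2, e3, f1, f2, f3, h1, h2, htr]
    ring
  conv_lhs => rw [hX]
  simp only [map_add, map_smul, LinearMap.add_apply, LinearMap.smul_apply]

/-- JOB WC, part 0 -/
theorem job_WC0 (φ : sl3 𝕜 →ₗ⁅𝕜⁆ Module.End 𝕜 M) (v : M)
    (h1v : φ (h1 𝕜) v = 0) (h2v : φ (h2 𝕜) v = 0) (e1v : φ (e1 𝕜) v = 0) (e2v : φ (e2 𝕜) v = 0) :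
    ∀ X : sl3 𝕜, φ X v = 0 := by
  intro X
  by_cases hv : v = 0
  · simp [hv]
  have S := sys φ
  have hf1 : φ (f1 𝕜) v = 0 := by
    obtain ⟨n, hn, h⟩ := prim _ _ _ S.e1f1 S.h1e1 S.h1f1 v hv 0 (by simpa using h1v) e1v
    have hn0 : n = 0 := by exact_mod_cast hn.symm
    simpa [hn0] using h
  have hf2 : φ (f2 𝕜) v = 0 := by
    obtain ⟨n, hn, h⟩ := prim _ _ _ S.e2f2 S.h2e2 S.h2f2 v hv 0 (by simpa using h2v) e2v
    have hn0 : n = 0 := by exact_mod_cast hn.symm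
    simpa [hn0] using h
  have he3 : φ (e3 𝕜) v = 0 := by
    have := S.e1e2 v
    rw [e2v, e1v, map_zero, map_zero, zero_add] at this
    exact this.symm
  have hf3 : φ (f3 𝕜) v = 0 := by
    have := S.f2f1 v
    rw [hf1, hf2, map_zero, map_zero, zero_add] at this
    exact this.symm
  rw [repr φ X v, e1v, e2v, he3, hf1, hf2, hf3, h1v, h2v]
  simp

/-- JOB WC, part 1 -/
theorem job_WC1 (φ : sl3 𝕜 →ₗ⁅𝕜⁆ Module.End 𝕜 M) (v : M) (hv : v ≠ 0)
    (h1v : φ (h1 𝕜) v = v) (h2v : φ (h2 𝕜) v = v) (e1v : φ (e1 𝕜) v = 0) (e2v : φ (e2 𝕜) v = 0) :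
    ∃ f : sl3 𝕜 →ₗ[𝕜] M, Function.Injective f ∧ ∀ X Y : sl3 𝕜, f ⁅X, Y⁆ = φ X (f Y) := by
  have S := sys φ
  have hf1 : φ (f1 𝕜) (φ (f1 𝕜) v) = 0 := by
    obtain ⟨n, hn, h⟩ := prim _ _ _ S.e1f1 S.h1e1 S.h1f1 v hv 1 (by simpa using h1v) e1v
    have hn0 : n = 1 := by exact_mod_cast hn.symm
    simpa [hn0, pow_succ] using h
  have hf2 : φ (f2 𝕜) (φ (f2 𝕜) v) = 0 := by
    obtain ⟨n, hn, h⟩ := prim _ _ _ S.e2f2 S.h2e2 S.h2f2 v hv 1 (by simpa using h2v) e2v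
    have hn0 : n = 1 := by exact_mod_cast hn.symm
    simpa [hn0, pow_succ] using h
  have he3 : φ (e3 𝕜) v = 0 := by
    have := S.e1e2 v
    rw [e2v, e1v, map_zero, map_zero, zero_add] at this
    exact this.symm
  have hrep := repr φ
  generalize φ (e1 𝕜) = E1 at *
  generalize φ (e2 𝕜) = E2 at *
  generalize φ (e3 𝕜) = E3 at *
  generalize φ (f1 𝕜) = F1 at *
  generalize φ (f2 𝕜) = F2 at *
  generalize φ (f3 𝕜) = F3 at *
  generalize φ (h1 𝕜) = H1 at *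
  generalize φ (h2 𝕜) = H2 at *
  -- relations in the module generated by `v`
  have r1 : F1 (F1 (F2 v)) = (-2 : 𝕜) • F1 (F3 v) := by
    have h : F2 (F1 (F1 v)) = 0 := by rw [hf1, map_zero]
    rw [S.f2f1, S.f2f1, map_add, S.f3f1] at h
    calc F1 (F1 (F2 v)) = (F1 (F1 (F2 v)) + F1 (F3 v) + F1 (F3 v)) + (-2 : 𝕜) • F1 (F3 v) := by
          module
      _ = _ := by rw [h, zero_add]
  have r2 : F1 (F2 (F3 v)) = (-(1/2) : 𝕜) • F3 (F3 v) := by
    have h : F2 (F2 (F1 (F1 v))) = 0 := by rw [hf1, map_zero, map_zero]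
    simp only [S.f2f1, S.f3f1, S.f3f2, map_add, hf2, map_zero] at h
    have h4 : (4 : 𝕜) • F1 (F2 (F3 v)) + (2 : 𝕜) • F3 (F3 v) = 0 := by rw [← h]; module
    have h5 : F1 (F2 (F3 v)) = (1/4 : 𝕜) • ((4 : 𝕜) • F1 (F2 (F3 v)) + (2 : 𝕜) • F3 (F3 v))
      - (1/2 : 𝕜) • F3 (F3 v) := by module
    rw [h5, h4]; module
  have r3 : F1 (F3 (F3 v)) = 0 := by
    have h : F3 (F1 (F1 (F2 v))) = (-2 : 𝕜) • F3 (F1 (F3 v)) := by rw [r1, map_smul]
    rw [S.f3f1, S.f3f1, S.f3f2, r2, S.f3f1, map_smul] at h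
    have h3 : ((3 : 𝕜)/2) • F1 (F3 (F3 v)) = 0 := by
      rw [← sub_eq_zero] at h
      rw [← h]; module
    exact (smul_eq_zero.1 h3).resolve_left (by norm_num)
  have r4 : F2 (F2 (F3 v)) = 0 := by rw [← S.f3f2, ← S.f3f2, hf2, map_zero]
  have r5 : F2 (F3 (F3 v)) = 0 := by
    have h : F2 (F1 (F2 (F3 v))) = (-(1/2) : 𝕜) • F2 (F3 (F3 v)) := by rw [r2, map_smul]
    rw [S.f2f1, r4, map_zero, zero_add, S.f3f2] at h
    have h3 : ((3 : 𝕜)/2) • F2 (F3 (F3 v)) = 0 := by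
      rw [← sub_eq_zero] at h
      rw [← h]; module
    exact (smul_eq_zero.1 h3).resolve_left (by norm_num)
  have r6 : F3 (F3 (F3 v)) = 0 := by
    have h : F2 (F1 (F3 (F3 v))) = 0 := by rw [r3, map_zero]
    rw [S.f2f1, r5, map_zero, zero_add] at h
    exact h
  have r7 : F1 (F1 (F3 v)) = 0 := by rw [← S.f3f1, ← S.f3f1, hf1, map_zero]
  let f : sl3 𝕜 →ₗ[𝕜] M :=
    { toFun := fun X => X.1 0 2 • v + X.1 1 2 • F1 v - X.1 0 1 • F2 v + X.1 0 0 • F1 (F2 v)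
        - (X.1 0 0 + X.1 1 1) • (F1 (F2 v) + F3 v) - X.1 1 0 • F1 (F3 v) - X.1 2 1 • F2 (F3 v)
        - ((1/2) * X.1 2 0) • F3 (F3 v)
      map_add' := by
        intro X Y
        have hadd : ∀ i j, (X + Y).1 i j = X.1 i j + Y.1 i j := fun i j => rfl
        simp only [hadd]
        module
      map_smul' := by
        intro c X
        have hsm : ∀ i j, (c • X).1 i j = c * X.1 i j := fun i j => rfl
        simp only [hsm, RingHom.id_apply]
        module }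
  have hf : ∀ X : sl3 𝕜, f X = X.1 0 2 • v + X.1 1 2 • F1 v - X.1 0 1 • F2 v
        + X.1 0 0 • F1 (F2 v)
        - (X.1 0 0 + X.1 1 1) • (F1 (F2 v) + F3 v) - X.1 1 0 • F1 (F3 v) - X.1 2 1 • F2 (F3 v)
        - ((1/2) * X.1 2 0) • F3 (F3 v) := fun X => rfl
  have hact : ∀ X Y : sl3 𝕜, f ⁅X, Y⁆ = φ X (f Y) := by
    intro X Y
    rw [hrep X (f Y), hf, hf, sl_bracket]
    simp only [Matrix.sub_apply, Matrix.mul_apply, Fin.sum_univ_three, tr22]
    generalize X.1 0 0 = x00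
    generalize X.1 0 1 = x01
    generalize X.1 0 2 = x02
    generalize X.1 1 0 = x10
    generalize X.1 1 1 = x11
    generalize X.1 1 2 = x12
    generalize X.1 2 0 = x20
    generalize X.1 2 1 = x21
    generalize Y.1 0 0 = y00
    generalize Y.1 0 1 = y01
    generalize Y.1 0 2 = y02
    generalize Y.1 1 0 = y10
    generalize Y.1 1 1 = y11
    generalize Y.1 1 2 = y12
    generalize Y.1 2 0 = y20
    generalize Y.1 2 1 = y21
    simp only [map_add, map_sub, map_smul, S.h1f1, S.h1f2, S.h1f3, S.h2f1, S.h2f2, S.h2f3,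
      S.f2f1, S.f3f1, S.f3f2, S.e1f1, S.e2f2, S.e3f3, S.e1f2, S.e2f1, S.e1f3, S.e2f3, S.e3f1,
      S.e3f2, h1v, h2v, e1v, e2v, he3, hf1, hf2, r1, r2, r3, r4, r5, r6, r7, map_zero]
    module
  refine ⟨f, ?_, hact⟩
  rw [← LinearMap.ker_eq_bot, LinearMap.ker_eq_bot']
  intro X hX
  have hc : ∀ (c : 𝕜), c • v = 0 → c = 0 := fun c h => (smul_eq_zero.1 h).resolve_right hv
  rw [hf] at hX
  have k20 : X.1 2 0 = 0 := by
    have h := congrArg (fun w => E3 (E3 w)) hX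
    simp only [map_add, map_sub, map_smul, S.h1f1, S.h1f2, S.h1f3, S.h2f1, S.h2f2, S.h2f3,
      S.f2f1, S.f3f1, S.f3f2, S.e1f1, S.e2f2, S.e3f3, S.e1f2, S.e2f1, S.e1f3, S.e2f3, S.e3f1,
      S.e3f2, h1v, h2v, e1v, e2v, he3, hf1, hf2, r1, r2, r3, r4, r5, r6, r7, map_zero] at h
    have h' := hc (-2 * X.1 2 0) (Eq.trans (by module) h)
    linear_combination (-1/2 : 𝕜) * h'
  have k10 : X.1 1 0 = 0 := by
    have h := congrArg (fun w => E1 (E3 w)) hX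
    simp only [k20, map_add, map_sub, map_smul, S.h1f1, S.h1f2, S.h1f3, S.h2f1, S.h2f2, S.h2f3,
      S.f2f1, S.f3f1, S.f3f2, S.e1f1, S.e2f2, S.e3f3, S.e1f2, S.e2f1, S.e1f3, S.e2f3, S.e3f1,
      S.e3f2, h1v, h2v, e1v, e2v, he3, hf1, hf2, r1, r2, r3, r4, r5, r6, r7, map_zero] at h
    have h' := hc (-X.1 1 0) (Eq.trans (by module) h)
    linear_combination -h'
  have k21 : X.1 2 1 = 0 := by
    have h := congrArg (fun w => E2 (E3 w)) hX
    simp only [k20, k10, map_add, map_sub, map_smul, S.h1f1, S.h1f2, S.h1f3, S.h2f1, S.h2f2, S.h2f3,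
      S.f2f1, S.f3f1, S.f3f2, S.e1f1, S.e2f2, S.e3f3, S.e1f2, S.e2f1, S.e1f3, S.e2f3, S.e3f1,
      S.e3f2, h1v, h2v, e1v, e2v, he3, hf1, hf2, r1, r2, r3, r4, r5, r6, r7, map_zero] at h
    have h' := hc (-X.1 2 1) (Eq.trans (by module) h)
    linear_combination -h'
  have k11 : X.1 1 1 = -2 * X.1 0 0 := by
    have h := congrArg (fun w => E3 w) hX
    simp only [k20, k10, k21, map_add, map_sub, map_smul, S.h1f1, S.h1f2, S.h1f3, S.h2f1, S.h2f2, S.h2f3,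
      S.f2f1, S.f3f1, S.f3f2, S.e1f1, S.e2f2, S.e3f3, S.e1f2, S.e2f1, S.e1f3, S.e2f3, S.e3f1,
      S.e3f2, h1v, h2v, e1v, e2v, he3, hf1, hf2, r1, r2, r3, r4, r5, r6, r7, map_zero] at h
    have h' := hc (-(2 * X.1 0 0 + X.1 1 1)) (Eq.trans (by module) h)
    linear_combination -h'
  have k00 : X.1 0 0 = 0 := by
    have h := congrArg (fun w => E2 (E1 w)) hX
    simp only [k20, k10, k21, k11, map_add, map_sub, map_smul, S.h1f1, S.h1f2, S.h1f3, S.h2f1, S.h2f2, S.h2f3,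
      S.f2f1, S.f3f1, S.f3f2, S.e1f1, S.e2f2, S.e3f3, S.e1f2, S.e2f1, S.e1f3, S.e2f3, S.e3f1,
      S.e3f2, h1v, h2v, e1v, e2v, he3, hf1, hf2, r1, r2, r3, r4, r5, r6, r7, map_zero] at h
    have h' := hc (3 * X.1 0 0) (Eq.trans (by module) h)
    linear_combination (1/3 : 𝕜) * h'
  rw [k00, mul_zero] at k11
  have k12 : X.1 1 2 = 0 := by
    have h := congrArg (fun w => E1 w) hX
    simp only [k20, k10, k21, k11, k00, map_add, map_sub, map_smul, S.h1f1, S.h1f2, S.h1f3, S.h2f1, S.h2f2, S.h2f3,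
      S.f2f1, S.f3f1, S.f3f2, S.e1f1, S.e2f2, S.e3f3, S.e1f2, S.e2f1, S.e1f3, S.e2f3, S.e3f1,
      S.e3f2, h1v, h2v, e1v, e2v, he3, hf1, hf2, r1, r2, r3, r4, r5, r6, r7, map_zero] at h
    have h' := hc (X.1 1 2) (Eq.trans (by module) h)
    exact h'
  have k01 : X.1 0 1 = 0 := by
    have h := congrArg (fun w => E2 w) hX
    simp only [k20, k10, k21, k11, k00, k12, map_add, map_sub, map_smul, S.h1f1, S.h1f2, S.h1f3, S.h2f1, S.h2f2, S.h2f3,
      S.f2f1, S.f3f1, S.f3f2, S.e1f1, S.e2f2, S.e3f3, S.e1f2, S.e2f1, S.e1f3, S.e2f3, S.e3f1,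
      S.e3f2, h1v, h2v, e1v, e2v, he3, hf1, hf2, r1, r2, r3, r4, r5, r6, r7, map_zero] at h
    have h' := hc (-X.1 0 1) (Eq.trans (by module) h)
    linear_combination -h'
  have k02 : X.1 0 2 = 0 := by
    have h := congrArg (fun w => w) hX
    simp only [k20, k10, k21, k11, k00, k12, k01, map_add, map_sub, map_smul, S.h1f1, S.h1f2, S.h1f3, S.h2f1, S.h2f2, S.h2f3,
      S.f2f1, S.f3f1, S.f3f2, S.e1f1, S.e2f2, S.e3f3, S.e1f2, S.e2f1, S.e1f3, S.e2f3, S.e3f1,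
      S.e3f2, h1v, h2v, e1v, e2v, he3, hf1, hf2, r1, r2, r3, r4, r5, r6, r7, map_zero] at h
    have h' := hc (X.1 0 2) (Eq.trans (by module) h)
    exact h'
  apply Subtype.ext
  ext i j
  have k22 := tr22 X
  rw [k00, k11] at k22
  fin_cases i <;> fin_cases j <;> simp [k20, k10, k21, k11, k00, k12, k01, k02, k22]

end

end Pool.Agent.J4H64.ABG
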